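import Pool.Agent.Lib.MP_92e372_an.JC.JB

set_option autoImplicit false

namespace Pool.Agent.Results.MP_92e372_an.JordanBanach

open Pool.Agent.Lib.MP_92e372_an.JC in
/-- Let `E` be a unital complex Jordan-Banach algebra (product `m`, unit `e`) and `B` a unital
C*-algebra. Let `φ : E → B` be a unital linear map whose range is closed, closed under the
involution and closed under squares (for instance all of `B`). If `φ` sends invertible elements
(`a ∘ b = e` and `a² ∘ b = a` for some `b`) to invertible elements, it is a Jordan homomorphism.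
No continuity is assumed. -/
theorem result {E B : Type*} [NormedAddCommGroup E] [NormedSpace ℂ E] [CompleteSpace E]
    [CStarAlgebra B] (m : E →L[ℂ] E →L[ℂ] E) (e : E)
    (hcomm : ∀ a b : E, m a b = m b a) (hone : ∀ a : E, m e a = a)
    (hjordan : ∀ a b : E, m (m a b) (m a a) = m a (m b (m a a)))
    (φ : E →ₗ[ℂ] B) (h1 : φ e = 1) (hclosed : IsClosed (Set.range φ))
    (hstar : ∀ x ∈ Set.range φ, star x ∈ Set.range φ)
    (hsq : ∀ x ∈ Set.range φ, x ^ 2 ∈ Set.range φ)
    (hu : ∀ a : E, (∃ b : E, m a b = e ∧ m (m a a) b = a) → IsUnit (φ a)) (a : E) :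
    φ (m a a) = φ a ^ 2 := by
  rcases subsingleton_or_nontrivial B with hB | hB
  · exact Subsingleton.elim _ _
  · rw [sq]
    exact IsJB.main ⟨hcomm, hone, hjordan⟩ φ
      ⟨⟨hclosed, ⟨e, h1⟩, fun x hx => by rw [← sq]; exact hsq x hx⟩, hstar⟩ h1
      (fun a b h2 h3 => hu a ⟨b, h2, h3⟩) a

/-- The associative case: `A` a unital Banach algebra with the product `(ab + ba) / 2`, and `φ`
onto. For a C*-algebra `A` this is the statement of the problem file. -/
example {A B : Type*} [NormedRing A] [NormedAlgebra ℂ A] [CompleteSpace A] [CStarAlgebra B]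
    (φ : A →ₗ[ℂ] B) (hs : Function.Surjective φ) (h1 : φ 1 = 1)
    (hu : ∀ a : A, IsUnit a → IsUnit (φ a)) (a : A) : φ (a ^ 2) = φ a ^ 2 := by
  let m : A →L[ℂ] A →L[ℂ] A :=
    (2⁻¹ : ℂ) • (ContinuousLinearMap.mul ℂ A + (ContinuousLinearMap.mul ℂ A).flip)
  have hm : ∀ a b, m a b = (2⁻¹ : ℂ) • (a * b + b * a) := fun a b => by simp [m]
  have hm2 : ∀ a, m a a = a * a := fun a => by rw [hm]; module
  have key := result m 1 (fun a b => by rw [hm, hm, add_comm])
    (fun a => by rw [hm, one_mul, mul_one]; module)
    (fun a b => by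
      simp only [hm2, hm, smul_mul_assoc, mul_smul_comm, ← smul_add]
      congr 2
      noncomm_ring)
    φ h1 (by rw [hs.range_eq]; exact isClosed_univ) (fun _ _ => hs _) (fun _ _ => hs _)
    (fun a ⟨b, h2, h3⟩ => hu a (by
      rw [hm2, hm] at h3
      rw [hm] at h2
      have e2 : a * b + b * a = 1 + 1 := by
        linear_combination (norm := module) (2 : ℂ) • h2
      have e3 : a * a * b + b * (a * a) = a + a := by
        linear_combination (norm := module) (2 : ℂ) • h3
      have e4 : a * b * a + a * b * a = a + a := by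
        linear_combination (norm := noncomm_ring) a * e2 + e2 * a - e3
      have e5 : a * b * a = a := by linear_combination (norm := module) (2⁻¹ : ℂ) • e4
      have e6 : a * b = b * a := by
        linear_combination (norm := noncomm_ring) e2 * (b * a) - a * b * e2 + e5 * b - b * e5
      have e7 : a * b = 1 := by
        rw [← e6] at e2
        linear_combination (norm := module) (2⁻¹ : ℂ) • e2
      exact ⟨⟨a, b, e7, e6 ▸ e7⟩, rfl⟩)) a
  rwa [hm2, ← sq] at key

end Pool.Agent.Results.MP_92e372_an.JordanBanach
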